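import Pool.Agent.H308.AL.Asm
import Pool.Agent.H308.AL.Fur0
import Pool.Agent.H308.AL.Fin
import Pool.Agent.H308.AL.P.INT
import Pool.Agent.H308.AL.P.INT2
import Pool.Agent.H308.AL.P.DGL
import Pool.Agent.H308.AL.P.BAS
import Pool.Agent.H308.AL.P.ALU
import Pool.Agent.H308.AL.P.CMP
import Pool.Agent.H308.AL.P.HNZ
import Pool.Agent.H308.AL.P.FUR
import Pool.Agent.H308.AL.P.STEP
import Pool.Agent.H308.AL.P.PW0
import Pool.Agent.H308.AL.P.LOW
import Pool.Agent.H308.AL.P.ITP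
import Pool.Agent.H308.AL.P.PUR
import Pool.Agent.H308.AL.P.SIM
import Pool.Agent.H308.AL.P.SPC
import Pool.Agent.H308.AL.P.UP
import Pool.Agent.H308.AL.P.DOWN
import Pool.Agent.H308.AL.P.SC1
import Pool.Agent.H308.AL.P.SC2
import Pool.Agent.H308.AL.P.CONT
import Pool.Agent.H308.AL.P.RED
import Pool.Agent.H308.AL.P.RED2
import Pool.Agent.H308.AL.P.BAIRE
import Pool.Agent.H308.AL.P.SCH
import Pool.Agent.H308.AL.P.ROW
import Pool.Agent.H308.AL.P.WTS
import Pool.Agent.H308.AL.P.TWB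
import Pool.Agent.H308.AL.P.TSG
import Pool.Agent.H308.AL.P.BPW
import Pool.Agent.H308.AL.P.TCO
import Pool.Agent.H308.AL.P.TOT
import Pool.Agent.H308.AL.P.KV1
import Pool.Agent.H308.AL.P.KV2
import Pool.Agent.H308.AL.P.KER
import Pool.Agent.H308.AL.P.MOD
import Pool.Agent.H308.AL.P.DOM
import Pool.Agent.H308.AL.P.DIA
import Pool.Agent.H308.AL.P.EPW
import Pool.Agent.H308.AL.P.EVL
import Pool.Agent.H308.AL.P.PHI
import Pool.Agent.H308.AL.P.SIG

/-!
# Iterated Aluthge transforms of composition operators need not converge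

For every `0 < a < 1` there is a weight `β` such that `C_φ` and `C_σ`, `φ(z) = a z + 1 - a`,
`σ(z) = a z / (1 - (1 - a) z)`, are bounded on `H²(β)`, while the iterated Aluthge transforms of
`C_σ` do not converge in the strong operator topology to a quasinormal operator.
-/

set_option autoImplicit false

open Filter Topology

noncomputable section

namespace Pool.Agent.Results.MP_943409_an.AluthgeComposition

open Pool.Agent.H308.AL

theorem result (a : ℝ) (ha : 0 < a) (ha1 : a < 1) :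
    ∃ β : ℕ → ℝ, β 0 = 1 ∧ (∀ j, 0 < β j) ∧
      (∀ (x : L2) (z : ℂ), ‖z‖ < 1 → Summable fun j => ‖x j / (β j : ℂ) * z ^ j‖) ∧
      ∃ Cφ Cσ : L2 →L[ℂ] L2,
        IsComp β (fun z => a * z + (1 - a)) Cφ ∧
        IsComp β (fun z => a * z / (1 - (1 - a) * z)) Cσ ∧
        (∃ A : ℕ → L2 →L[ℂ] L2, A 0 = Cσ ∧ ∀ n, IsAluthge (A n) (A (n + 1))) ∧
        ∀ A : ℕ → L2 →L[ℂ] L2, A 0 = Cσ → (∀ n, IsAluthge (A n) (A (n + 1))) →
          ¬ ∃ L : L2 →L[ℂ] L2, QuasiNormal L ∧ SOT A L := by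
  have hINT : S_INT := Pool.Agent.H603.AL.int
  have hINT2 : S_INT2 := Pool.Agent.H187.AL.int2 hINT
  have hDGL : S_DGL := Pool.Agent.H331.AL.dgl
  have hBAS : S_BAS := Pool.Agent.H407.AL.bas
  have hALU : S_ALU := Pool.Agent.H726.AL.alu hDGL hBAS
  have hCMP : S_CMP := Pool.Agent.H746.AL.cmp hDGL hBAS hALU
  have hHNZ : S_HNZ := Pool.Agent.H282.AL.hnz hALU hBAS
  have hFUR0 : S_FUR0 := fur0 hINT2
  have hFUR : S_FUR := Pool.Agent.H155.AL.fur hFUR0
  have hSTEP : S_STEP := Pool.Agent.H671.AL.step hINT2 hALU hBAS hFUR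
  have hPW0 : S_PW0 := Pool.Agent.H404.AL.pw0
  have hLOW : S_LOW := Pool.Agent.H658.AL.low hSTEP hPW0 hALU hBAS
  have hITP : S_ITP := Pool.Agent.H922.AL.itp hALU hBAS
  have hPUR : S_PUR := Pool.Agent.H261.AL.pur hITP
  have hSIM : S_SIM := Pool.Agent.H106.AL.sim hCMP hALU
  have hSPC : S_SPC := Pool.Agent.H975.AL.spc
  have hUP : S_UP := Pool.Agent.H665.AL.up hSPC hHNZ hALU
  have hDOWN : S_DOWN := Pool.Agent.H784.AL.down hSPC hHNZ hALU
  have hSC2 : S_SC2 := Pool.Agent.H249.AL.sc2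
  have hSC1 : S_SC1 := Pool.Agent.H187.AL.sc1 hSC2
  have hCONT : S_CONT := Pool.Agent.H707.AL.cont hSC1 hSC2 hALU hBAS
  have hRED : S_RED := Pool.Agent.H549.AL.red hINT2 hALU hBAS
  have hRED2 : S_RED2 := Pool.Agent.H200.AL.red2
  have hBAIRE : S_BAIRE := Pool.Agent.H597.AL.baire
  have hSCH : S_SCH := Pool.Agent.H127.AL.sch
  have hROW : S_ROW := Pool.Agent.H603.AL.row
  have hWTS : S_WTS := Pool.Agent.H400.AL.wts
  have hTWB : S_TWB := Pool.Agent.H695.AL.twb hSCH hROW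
  have hTSG : S_TSG := Pool.Agent.H407.AL.tsg hTWB
  have hBPW : S_BPW := Pool.Agent.H967.AL.bpw hSCH hROW hTWB hTSG
  have hTCO : S_TCO := Pool.Agent.H670.AL.tco hTWB hROW hWTS
  have hTOT : S_TOT := Pool.Agent.H415.AL.tot
  have hKV1 : S_KV1 := Pool.Agent.H729.AL.kv1 hTWB
  have hKV2 : S_KV2 := Pool.Agent.H553.AL.kv2 hTWB hKV1
  have hKER : S_KER := Pool.Agent.H726.AL.ker hTOT hKV1 hKV2
  have hMOD : S_MOD := Pool.Agent.H828.AL.mod hKER hTWB hTSG hDGL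
  have hDOM : S_DOM := Pool.Agent.H803.AL.dom hTWB
  have hDIA : S_DIA := Pool.Agent.H284.AL.dia hTWB hDOM hSCH
  have hEPW : S_EPW := Pool.Agent.H331.AL.epw hKER hTWB
  have hFIN : S_FIN := fin hDIA hEPW hKER hTSG hTWB
  have hEVL : S_EVL := Pool.Agent.H282.AL.evl
  have hPHI : S_PHI := Pool.Agent.H921.AL.phi hSCH hEVL
  have hSIG : S_SIG := Pool.Agent.H106.AL.sig hSCH hTWB hEVL hROW
  exact main hALU hLOW hPUR hSIM hUP hDOWN hCONT hBAIRE hWTS hTWB hBPW hTCO hMOD hDIA hFIN hRED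
    hRED2 hEVL hPHI hSIG a ha ha1

end Pool.Agent.Results.MP_943409_an.AluthgeComposition
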